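import Pool.Graph.R_pool_sql_team_seeded_63374d34.N859.LP.Defs

/-! Traces of Frobenius of several elliptic curves: definitions. -/

set_option autoImplicit false

namespace Pool.Agent.H60.HS

open NumberField IsDedekindDomain Filter Topology
open Pool.Agent.N859.G4 (PL)
open Pool.Agent.N859.LP (Cuspidals)

variable {K : Type*} [Field K] [NumberField K] {S : Finset (HeightOneSpectrum (𝓞 K))} {n : ℕ}

/-- the trace of the `k`-th power of `diag(z, 1/z)` -/
noncomputable def tr (z : ℂ) (k : ℕ) : ℂ := z ^ k + z⁻¹ ^ k

/-- The traces of the `k`-th powers of the Frobenius classes in the representations `π_i` and, for `i ≤ j`,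
in `π_i ⊠ π_j` (if `i < j`) and in `Sym² π_i`, that is `π_i ⊠ π_i` without its trivial part (if `i = j`). -/
noncomputable def T (α : Fin n → PL S → ℂ) (a : Fin n ⊕ {p : Fin n × Fin n // p.1 ≤ p.2}) (v : PL S) (k : ℕ) : ℂ :=
  Sum.elim (fun i => tr (α i v) k)
    (fun p => tr (α p.1.1 v) k * tr (α p.1.2 v) k - if p.1.1 = p.1.2 then 1 else 0) a

/-- Let `E_1, …, E_n` be elliptic curves over `K` with good reduction outside `S`, with the traces of Frobenius
`√(N v) (α_i(v) + 1 / α_i(v))`, `|α_i(v)| = 1`. The structure lists what is used of them: the Hasse bound, and the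
facts of the Rankin-Selberg theory for the representations `π_i` of `GL₂` of the curves, their products `π_i ⊠ π_j`
(`i < j`) on `GL₄` and their symmetric squares on `GL₃`, all cuspidal and pairwise not isomorphic. -/
structure Curves (α : Fin n → PL S → ℂ) : Prop where
  /-- the Hasse bound -/
  norm_one : ∀ i v, ‖α i v‖ = 1
  /-- the `L`-functions of these representations and of their pairs -/
  cuspidal : Cuspidals (T α)

/-- the normalised trace of Frobenius of `E_i` -/
noncomputable def trace (α : Fin n → PL S → ℂ) (i : Fin n) (v : PL S) : ℝ := 2 * (α i v).re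

/-- the linear form `∑ c_i x_i` in the normalised traces of Frobenius -/
noncomputable def lin (α : Fin n → PL S → ℂ) (c : Fin n → ℝ) (v : PL S) : ℝ := ∑ i, c i * trace α i v

/-- the fourth moment `3 (∑ c_i²)² - ∑ c_i⁴` of the linear form, divided by the square of the second moment -/
noncomputable def kurt (c : Fin n → ℝ) : ℝ := 3 - (∑ i, c i ^ 4) / (∑ i, c i ^ 2) ^ 2

/-- the square root in the lower bound for large values -/
noncomputable def Dl (t κ : ℝ) : ℝ := √(t ^ 2 * (κ - 1) ^ 2 + 4 * (κ - t ^ 2) * (1 - t ^ 2))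

/-- the lower bound for large values -/
noncomputable def W (t κ : ℝ) : ℝ :=
  4 * (1 - t ^ 2) ^ 4 / (Dl t κ * (Dl t κ - (3 - κ) * t + 2 * t ^ 3) * (2 - (3 - κ) * t ^ 2 + t * Dl t κ))

end Pool.Agent.H60.HS
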