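import Pool.Agent.H60.HS.Main

/-! Half-spaces and large values: the densities. -/

set_option autoImplicit false

namespace Pool.Agent.H60.HS

open NumberField IsDedekindDomain Filter Topology
open Pool.Agent.N859.G4 Pool.Agent.N859.LP Pool.Agent.N859.SP

section vec

variable {n : ℕ} {c : Fin n → ℝ}

lemma sum_sq_pos (hc : c ≠ 0) : 0 < ∑ i, c i ^ 2 := by
  obtain ⟨i, hi⟩ := Function.ne_iff.1 hc
  have hi' : c i ≠ 0 := by simpa using hi
  exact Finset.sum_pos' (fun j _ => sq_nonneg (c j)) ⟨i, Finset.mem_univ i, by positivity⟩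

lemma sum_four_le (c : Fin n → ℝ) : ∑ i, c i ^ 4 ≤ (∑ i, c i ^ 2) ^ 2 := by
  have h : ∀ i ∈ Finset.univ, c i ^ 4 ≤ c i ^ 2 * ∑ j, c j ^ 2 := fun i _ => by
    have := Finset.single_le_sum (f := fun j => c j ^ 2) (fun j _ => sq_nonneg (c j)) (Finset.mem_univ i)
    calc c i ^ 4 = c i ^ 2 * c i ^ 2 := by ring
      _ ≤ _ := mul_le_mul_of_nonneg_left this (sq_nonneg _)
  calc ∑ i, c i ^ 4 ≤ ∑ i, c i ^ 2 * ∑ j, c j ^ 2 := Finset.sum_le_sum h
    _ = (∑ i, c i ^ 2) ^ 2 := by rw [← Finset.sum_mul, sq]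

lemma four_ge (c : Fin n → ℝ) : (∑ i, c i ^ 2) ^ 2 ≤ n * ∑ i, c i ^ 4 := by
  have := sq_sum_le_card_mul_sum_sq (s := (Finset.univ : Finset (Fin n))) (f := fun i => c i ^ 2)
  simp only [Finset.card_univ, Fintype.card_fin] at this
  calc _ ≤ (n : ℝ) * ∑ i, (c i ^ 2) ^ 2 := this
    _ = _ := by
      congr 1
      exact Finset.sum_congr rfl fun i _ => by ring

lemma two_le_kurt (hc : c ≠ 0) : 2 ≤ kurt c := by
  have h := sum_sq_pos hc
  unfold kurt
  have : (∑ i, c i ^ 4) / (∑ i, c i ^ 2) ^ 2 ≤ 1 := by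
    rw [div_le_one (by positivity)]
    exact sum_four_le c
  linarith

lemma kurt_le (hc : c ≠ 0) : kurt c ≤ 3 - 1 / n := by
  have h := sum_sq_pos hc
  have hn : 0 < n := by
    rcases Nat.eq_zero_or_pos n with rfl | hn
    · simp at h
    · exact hn
  unfold kurt
  have : 1 / (n : ℝ) ≤ (∑ i, c i ^ 4) / (∑ i, c i ^ 2) ^ 2 := by
    rw [div_le_div_iff₀ (by exact_mod_cast hn) (by positivity), one_mul, mul_comm]
    exact four_ge c
  linarith

lemma kurt_le3 (c : Fin n → ℝ) : kurt c ≤ 3 := by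
  unfold kurt
  have : 0 ≤ (∑ i, c i ^ 4) / (∑ i, c i ^ 2) ^ 2 := by positivity
  linarith

/-- the unit vector in the direction of `c` -/
noncomputable def unit (c : Fin n → ℝ) (i : Fin n) : ℝ := c i / √(∑ j, c j ^ 2)

lemma unit_sq (hc : c ≠ 0) : ∑ i, unit c i ^ 2 = 1 := by
  have h := sum_sq_pos hc
  unfold unit
  simp only [div_pow, Real.sq_sqrt h.le]
  rw [← Finset.sum_div, div_self h.ne']

lemma unit_four (hc : c ≠ 0) : ∑ i, unit c i ^ 4 = 3 - kurt c := by
  have h := sum_sq_pos hc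
  unfold unit kurt
  have e : √(∑ j, c j ^ 2) ^ 4 = (∑ j, c j ^ 2) ^ 2 := by
    rw [show (4 : ℕ) = 2 * 2 from rfl, pow_mul, Real.sq_sqrt h.le]
  simp only [div_pow, e]
  rw [← Finset.sum_div]
  ring

lemma unit_le (hc : c ≠ 0) (i : Fin n) : |unit c i| ≤ 1 := by
  have h := unit_sq hc
  have := Finset.single_le_sum (f := fun j => unit c j ^ 2) (fun j _ => sq_nonneg _) (Finset.mem_univ i)
  rw [h] at this
  rw [← sq_le_one_iff_abs_le_one]
  exact this

end vec

section cont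

variable {t : ℝ}

lemma Dl_cont (t : ℝ) : Continuous (Dl t) := by
  unfold Dl
  fun_prop

lemma na_cont (t : ℝ) : Continuous (na t) := by
  unfold na
  have := Dl_cont t
  fun_prop

lemma nb_cont (t : ℝ) : Continuous (nb t) := by
  unfold nb
  have := Dl_cont t
  fun_prop

/-- the coefficients are bounded -/
lemma cf_bdd (ht : 0 ≤ t) (ht1 : t < 1) :
    ∃ B : ℝ, 0 ≤ B ∧ ∀ κ ∈ Set.Icc (1 : ℝ) 3, ∀ j, |cf (na t κ) t (nb t κ) j| ≤ B := by
  have ca := (na_cont t).continuousOn (s := Set.Icc 1 3)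
  have cb := (nb_cont t).continuousOn (s := Set.Icc 1 3)
  have cp : ContinuousOn (fun κ => 1 / (na t κ + nb t κ)) (Set.Icc 1 3) := by
    refine continuousOn_const.div (ca.add cb) fun κ hκ => ?_
    have h1 := na_pos ht ht1 hκ.1
    have h2 := nb_gt ht ht1 hκ.1
    exact (by linarith : 0 < na t κ + nb t κ).ne'
  have cr : ContinuousOn (fun κ => 1 / (nb t κ - t)) (Set.Icc 1 3) := by
    refine continuousOn_const.div (cb.sub continuousOn_const) fun κ hκ => ?_
    have h2 := nb_gt ht ht1 hκ.1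
    exact (by linarith : 0 < nb t κ - t).ne'
  have key : ∀ j, ContinuousOn (fun κ => cf (na t κ) t (nb t κ) j) (Set.Icc 1 3) := by
    intro j
    fin_cases j <;> simp only [cf, Fin.zero_eta, Fin.mk_one, Fin.reduceFinMk, Matrix.cons_val_zero,
      Matrix.cons_val_one, Matrix.cons_val] <;> fun_prop
  choose B hB using fun j => (isCompact_Icc.exists_bound_of_continuousOn (key j))
  refine ⟨∑ j, |B j|, Finset.sum_nonneg fun j _ => abs_nonneg _, fun κ hκ j => ?_⟩
  have h1 := hB j κ hκ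
  rw [Real.norm_eq_abs] at h1
  have h2 := Finset.single_le_sum (f := fun j => |B j|) (fun j _ => abs_nonneg _) (Finset.mem_univ j)
  exact h1.trans ((le_abs_self _).trans h2)

end cont

variable {K : Type*} [Field K] [NumberField K] {S : Finset (HeightOneSpectrum (𝓞 K))} {n : ℕ}
variable {α : Fin n → PL S → ℂ}

lemma M_const {x : ℝ} (hZ : 0 < Z S x) (r : ℝ) : M (fun _ : PL S => r) x = r := by
  unfold M
  rw [tsum_mul_left]
  change r * Z S x / Z S x = r
  field_simp

omit [NumberField K] in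
lemma lin_unit (c : Fin n → ℝ) (v : PL S) : lin α (unit c) v = lin α c v / √(∑ j, c j ^ 2) := by
  unfold lin unit
  rw [Finset.sum_div]
  exact Finset.sum_congr rfl fun i _ => by ring

lemma Bd_pow {f : PL S → ℝ} (hf : Bd f) (k : ℕ) : Bd fun v => f v ^ k := by
  obtain ⟨B, hB⟩ := hf
  refine ⟨B ^ k, fun v => ?_⟩
  rw [abs_pow]
  exact pow_le_pow_left₀ (abs_nonneg _) (hB v) k

lemma M_mnr {f : PL S → ℝ} (hf : Bd f) (a t b : ℝ) {x : ℝ} (hx : 1 < x) (hZ : 0 < Z S x) :
    M (fun v => mnr a t b (f v)) x = cf a t b 0 + cf a t b 1 * M f x + cf a t b 2 * M (fun v => f v ^ 2) x +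
      cf a t b 3 * M (fun v => f v ^ 3) x + cf a t b 4 * M (fun v => f v ^ 4) x := by
  have e : (fun v => mnr a t b (f v)) = fun v => cf a t b 0 + cf a t b 1 * f v + cf a t b 2 * f v ^ 2 +
      cf a t b 3 * f v ^ 3 + cf a t b 4 * f v ^ 4 := funext fun v => mnr_poly a t b (f v)
  have b0 := Bd.const (S := S) (cf a t b 0)
  have b1 := hf.const_mul (cf a t b 1)
  have b2 := (Bd_pow hf 2).const_mul (cf a t b 2)
  have b3 := (Bd_pow hf 3).const_mul (cf a t b 3)
  have b4 := (Bd_pow hf 4).const_mul (cf a t b 4)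
  rw [e, M_add (((b0.add b1).add b2).add b3) b4 hx, M_add ((b0.add b1).add b2) b3 hx,
    M_add (b0.add b1) b2 hx, M_add b0 b1 hx, M_const hZ, M_const_mul, M_const_mul, M_const_mul, M_const_mul]

lemma mnr_ind {a t b : ℝ} (ha : 0 < a + t) (hb : t < b) (f : PL S → ℝ) (v : PL S) :
    mnr a t b (f v) ≤ ind (fun v => t < f v) v := by
  unfold ind
  split_ifs with h
  · exact mnr_le_one ha hb h
  · exact mnr_nonpos ha hb (not_lt.1 h)

/-- **Large values of linear forms, uniformly in the linear form.** -/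
theorem uniform_large (h : Curves α) {t : ℝ} (ht : 0 ≤ t) (ht1 : t < 1) {ε : ℝ} (hε : 0 < ε) :
    ∀ᶠ x : ℝ in 𝓝[>] 1, ∀ c : Fin n → ℝ, c ≠ 0 →
      W t (kurt c) - ε ≤ share (fun v => t * √(∑ i, c i ^ 2) < lin α c v) x := by
  obtain ⟨B, hB0, hB⟩ := cf_bdd ht ht1
  have hδ : 0 < ε / (4 * (B + 1)) := by positivity
  filter_upwards [uniform h hδ, Z_pos (S := S), self_mem_nhdsWithin] with x hx hZ hx1
  have hx1 : (1 : ℝ) < x := hx1
  intro c hc
  have hs := sum_sq_pos hc
  obtain ⟨m1, m2, m3, m4⟩ := hx (unit c) (unit_le hc)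
  have k2 := two_le_kurt hc
  have k3 := kurt_le3 c
  have hκ1 : (1 : ℝ) ≤ kurt c := by linarith
  have hκ : kurt c ∈ Set.Icc (1 : ℝ) 3 := ⟨hκ1, k3⟩
  have hBj := hB (kurt c) hκ
  have hval := value ht ht1 hκ1
  have hna := na_pos ht ht1 hκ1
  have hnb := nb_gt ht ht1 hκ1
  rw [unit_sq hc] at m2
  rw [unit_sq hc, unit_four hc] at m4
  have hbd : Bd (lin α (unit c)) := (mlin1 h (unit c)).1
  have e1 : (fun v => t * √(∑ i, c i ^ 2) < lin α c v) = fun v => t < lin α (unit c) v := by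
    funext v
    rw [lin_unit, lt_div_iff₀ (Real.sqrt_pos.2 hs)]
  rw [e1, share_ind]
  set a := na t (kurt c) with ha
  set b := nb t (kurt c) with hb
  have h1 : M (fun v => mnr a t b (lin α (unit c) v)) x ≤ M (ind fun v => t < lin α (unit c) v) x := by
    refine M_mono ?_ (Bd_ind _) (fun v => mnr_ind (by linarith) hnb _ v) hx1
    have e : (fun v => mnr a t b (lin α (unit c) v)) = fun v => cf a t b 0 + cf a t b 1 * lin α (unit c) v +
        cf a t b 2 * lin α (unit c) v ^ 2 + cf a t b 3 * lin α (unit c) v ^ 3 +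
        cf a t b 4 * lin α (unit c) v ^ 4 := funext fun v => mnr_poly a t b _
    rw [e]
    exact ((((Bd.const _).add (hbd.const_mul _)).add ((Bd_pow hbd 2).const_mul _)).add
      ((Bd_pow hbd 3).const_mul _)).add ((Bd_pow hbd 4).const_mul _)
  refine le_trans ?_ h1
  rw [M_mnr hbd a t b hx1 hZ, ← hval]
  have bnd : ∀ (j : Fin 5) (y : ℝ), |y| ≤ ε / (4 * (B + 1)) → -(ε / 4) ≤ cf a t b j * y := by
    intro j y hy
    have : |cf a t b j * y| ≤ B * (ε / (4 * (B + 1))) := by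
      rw [abs_mul]
      exact mul_le_mul (hBj j) hy (abs_nonneg _) hB0
    have h2 : B * (ε / (4 * (B + 1))) ≤ ε / 4 := by
      rw [← mul_div_assoc, div_le_div_iff₀ (by positivity) (by norm_num)]
      nlinarith
    have := neg_abs_le (cf a t b j * y)
    linarith
  have g1 := bnd 1 _ m1
  have g2 := bnd 2 _ m2
  have g3 := bnd 3 _ m3
  have g4 := bnd 4 _ m4
  have e4 : (3 * 1 ^ 2 - (3 - kurt c) : ℝ) = kurt c := by ring
  rw [e4] at g4
  linarith

/-- **Large values of linear forms.** -/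
theorem large (h : Curves α) {t : ℝ} (ht : 0 ≤ t) (ht1 : t < 1) {c : Fin n → ℝ} (hc : c ≠ 0) :
    W t (kurt c) ≤ lowerDensity fun v => t * √(∑ i, c i ^ 2) < lin α c v := by
  refine le_of_forall_pos_le_add fun ε hε => ?_
  have h1 : W t (kurt c) - ε ≤ lowerDensity fun v => t * √(∑ i, c i ^ 2) < lin α c v := by
    unfold lowerDensity
    refine le_liminf_of_le ?_ ?_
    · refine IsBoundedUnder.isCoboundedUnder_ge ?_
      exact ⟨1, share_le_one⟩
    · filter_upwards [uniform_large h ht ht1 hε] with x hx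
      exact hx c hc
  linarith

/-- **Half-spaces.** -/
theorem half (h : Curves α) : ∀ᶠ x : ℝ in 𝓝[>] 1, ∀ c : Fin n → ℝ, c ≠ 0 →
    1 / 6 < share (fun v => 0 < lin α c v) x := by
  rcases Nat.eq_zero_or_pos n with rfl | hn
  · refine Eventually.of_forall fun x c hc => absurd (Subsingleton.elim c 0) hc
  have hn' : (0 : ℝ) < n := by exact_mod_cast hn
  -- the gain
  have hg : (0 : ℝ) < 1 / (2 * (3 - 1 / n)) - 1 / 6 := by
    have h1 : (1 : ℝ) / n ≤ 1 := by
      rw [div_le_one hn']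
      exact_mod_cast hn
    have h2 : (0 : ℝ) < 1 / n := by positivity
    have h3 : (0 : ℝ) < 2 * (3 - 1 / n) := by linarith
    rw [sub_pos, div_lt_div_iff₀ (by norm_num) h3]
    linarith
  filter_upwards [uniform_large h le_rfl one_pos (half_pos hg)] with x hx
  intro c hc
  have h1 := hx c hc
  have k2 := two_le_kurt hc
  have k3 := kurt_le hc
  rw [W_zero (by linarith : (1 : ℝ) ≤ kurt c)] at h1
  simp only [zero_mul] at h1
  have h2 : 1 / (2 * (3 - 1 / (n : ℝ))) ≤ 1 / (2 * kurt c) :=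
    one_div_le_one_div_of_le (by linarith) (by linarith)
  linarith

end Pool.Agent.H60.HS
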