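import Pool.Agent.H60.HS.Moments

/-! The moments of linear forms in the traces of Frobenius of several elliptic curves. -/

set_option autoImplicit false

namespace Pool.Agent.H60.HS

open NumberField IsDedekindDomain Filter Topology
open Pool.Agent.N859.G4 Pool.Agent.N859.LP Pool.Agent.N859.SP

variable {K : Type*} [Field K] [NumberField K] {S : Finset (HeightOneSpectrum (𝓞 K))} {n : ℕ}

variable {α : Fin n → PL S → ℂ}

lemma Bd_sum {ι : Type*} (s : Finset ι) {f : ι → PL S → ℝ} (h : ∀ i ∈ s, Bd (f i)) :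
    Bd fun v => ∑ i ∈ s, f i v := by
  classical
  induction s using Finset.induction_on with
  | empty => simpa using Bd.const (S := S) 0
  | insert a s ha ih =>
    obtain ⟨B, hB⟩ := (h a (Finset.mem_insert_self a s)).add (ih fun i hi => h i (Finset.mem_insert_of_mem hi))
    refine ⟨B, fun v => ?_⟩
    change |∑ i ∈ insert a s, f i v| ≤ B
    rw [Finset.sum_insert ha]
    exact hB v

lemma M_sum {ι : Type*} (s : Finset ι) {f : ι → PL S → ℝ} (h : ∀ i ∈ s, Bd (f i)) {x : ℝ} (hx : 1 < x) :
    M (fun v => ∑ i ∈ s, f i v) x = ∑ i ∈ s, M (f i) x := by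
  classical
  induction s using Finset.induction_on with
  | empty =>
    simp only [Finset.sum_empty]
    unfold M
    simp
  | insert a s ha ih =>
    have h1 := h a (Finset.mem_insert_self a s)
    have h2 := Bd_sum s fun i hi => h i (Finset.mem_insert_of_mem hi)
    have e : (fun v => ∑ i ∈ insert a s, f i v) = fun v => f a v + ∑ i ∈ s, f i v := by
      funext v
      rw [Finset.sum_insert ha]
    rw [e, M_add h1 h2 hx, ih fun i hi => h i (Finset.mem_insert_of_mem hi), Finset.sum_insert ha]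

/-- averages of linear combinations with coefficients of absolute value at most one -/
lemma M_comb {J : Type*} [Fintype J] {F : J → PL S → ℝ} (hF : ∀ j, Bd (F j)) (w e : J → ℝ) (hw : ∀ j, |w j| ≤ 1)
    {x : ℝ} (hx : 1 < x) :
    |M (fun v => ∑ j, w j * F j v) x - ∑ j, w j * e j| ≤ ∑ j, |M (F j) x - e j| := by
  rw [M_sum Finset.univ (fun j _ => (hF j).const_mul (w j)) hx, ← Finset.sum_sub_distrib]
  refine (Finset.abs_sum_le_sum_abs _ _).trans (Finset.sum_le_sum fun j _ => ?_)
  rw [M_const_mul, ← mul_sub, abs_mul]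
  calc |w j| * |M (F j) x - e j| ≤ 1 * |M (F j) x - e j| := mul_le_mul_of_nonneg_right (hw j) (abs_nonneg _)
    _ = _ := one_mul _

lemma err_tendsto {J : Type*} [Fintype J] {F : J → PL S → ℝ} {e : J → ℝ} (h : ∀ j, Mean (F j) (e j)) :
    Tendsto (fun x => ∑ j, |M (F j) x - e j|) (𝓝[>] 1) (𝓝 0) := by
  have : Tendsto (fun x => ∑ j, |M (F j) x - e j|) (𝓝[>] 1) (𝓝 (∑ _j : J, (0 : ℝ))) := by
    refine tendsto_finsetSum _ fun j _ => ?_
    have h1 := ((h j).2.sub_const (e j)).abs
    simpa using h1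
  simpa using this

/-- the products of the coefficients -/
def c2 (c : Fin n → ℝ) (p : Fin n × Fin n) : ℝ := c p.1 * c p.2
/-- the products of the coefficients -/
def c3 (c : Fin n → ℝ) (p : Fin n × Fin n × Fin n) : ℝ := c p.1 * c p.2.1 * c p.2.2
/-- the products of the coefficients -/
def c4 (c : Fin n → ℝ) (p : Fin n × Fin n × Fin n × Fin n) : ℝ := c p.1 * c p.2.1 * c p.2.2.1 * c p.2.2.2

lemma sum_sq (a : Fin n → ℝ) : (∑ i, a i) ^ 2 = ∑ p : Fin n × Fin n, a p.1 * a p.2 := by
  rw [sq, Finset.sum_mul_sum, Fintype.sum_prod_type]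

lemma sum_cube (a : Fin n → ℝ) : (∑ i, a i) ^ 3 = ∑ p : Fin n × Fin n × Fin n, a p.1 * a p.2.1 * a p.2.2 := by
  rw [pow_succ, sum_sq, Finset.sum_mul_sum, Fintype.sum_prod_type, Fintype.sum_prod_type]
  refine Finset.sum_congr rfl fun i _ => ?_
  rw [Fintype.sum_prod_type]

lemma sum_four (a : Fin n → ℝ) :
    (∑ i, a i) ^ 4 = ∑ p : Fin n × Fin n × Fin n × Fin n, a p.1 * a p.2.1 * a p.2.2.1 * a p.2.2.2 := by
  rw [pow_succ, sum_cube, Finset.sum_mul_sum, Fintype.sum_prod_type, Fintype.sum_prod_type]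
  refine Finset.sum_congr rfl fun i _ => ?_
  rw [Fintype.sum_prod_type, Fintype.sum_prod_type]
  refine Finset.sum_congr rfl fun j _ => ?_
  rw [Fintype.sum_prod_type]

lemma val2 (c : Fin n → ℝ) : ∑ p : Fin n × Fin n, c2 c p * (if p.1 = p.2 then 1 else 0) = ∑ i, c i ^ 2 := by
  rw [Fintype.sum_prod_type]
  refine Finset.sum_congr rfl fun i _ => ?_
  rw [Finset.sum_eq_single i]
  · simp [c2, sq]
  · intro j _ hj
    simp [Ne.symm hj]
  · intro h
    exact absurd (Finset.mem_univ i) h

lemma val4 (c : Fin n → ℝ) : ∑ p : Fin n × Fin n × Fin n × Fin n, c4 c p * e4 p.1 p.2.1 p.2.2.1 p.2.2.2 =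
    3 * (∑ i, c i ^ 2) ^ 2 - ∑ i, c i ^ 4 := by
  have split : ∀ i j k l : Fin n, e4 i j k l = (if i = j then (if k = l then 1 else 0) else 0) +
      (if i = k then (if j = l then 1 else 0) else 0) + (if i = l then (if j = k then 1 else 0) else 0) -
      (if i = j then (if k = l then (if i = k then 1 else 0) else 0) else 0) := by
    intro i j k l
    unfold e4
    by_cases h1 : i = j <;> by_cases h2 : k = l <;> by_cases h3 : i = k <;> by_cases h4 : j = l <;>
      by_cases h5 : i = l <;> by_cases h6 : j = k <;> simp_all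
  have A : ∀ f : Fin n → Fin n → ℝ, (∑ i, ∑ j, if i = j then f i j else 0) = ∑ i, f i i := by
    intro f
    refine Finset.sum_congr rfl fun i _ => ?_
    rw [Finset.sum_ite_eq]
    simp
  simp only [Fintype.sum_prod_type, c4, split]
  have e1 : ∀ i j k l : Fin n, c i * c j * c k * c l * ((if i = j then (if k = l then 1 else 0) else 0) +
      (if i = k then (if j = l then 1 else 0) else 0) + (if i = l then (if j = k then 1 else 0) else 0) -
      (if i = j then (if k = l then (if i = k then (1 : ℝ) else 0) else 0) else 0)) =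
      (if i = j then (if k = l then c i * c j * c k * c l else 0) else 0) +
      (if i = k then (if j = l then c i * c j * c k * c l else 0) else 0) +
      (if i = l then (if j = k then c i * c j * c k * c l else 0) else 0) -
      (if i = j then (if k = l then (if i = k then c i * c j * c k * c l else 0) else 0) else 0) := by
    intro i j k l
    split_ifs <;> ring
  simp only [e1, Finset.sum_sub_distrib, Finset.sum_add_distrib]
  have s1 : (∑ i, ∑ j, ∑ k, ∑ l, if i = j then (if k = l then c i * c j * c k * c l else 0) else 0) =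
      (∑ i, c i ^ 2) ^ 2 := by
    rw [sq, Finset.sum_mul_sum]
    refine Finset.sum_congr rfl fun i _ => ?_
    rw [Finset.sum_eq_single i]
    · simp only [if_true]
      rw [A fun k l => c i * c i * c k * c l]
      exact Finset.sum_congr rfl fun k _ => by ring
    · intro j _ hj
      simp [Ne.symm hj]
    · intro h
      exact absurd (Finset.mem_univ i) h
  have s2 : (∑ i, ∑ j, ∑ k, ∑ l, if i = k then (if j = l then c i * c j * c k * c l else 0) else 0) =
      (∑ i, c i ^ 2) ^ 2 := by
    rw [sq, Finset.sum_mul_sum]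
    refine Finset.sum_congr rfl fun i _ => Finset.sum_congr rfl fun j _ => ?_
    rw [Finset.sum_eq_single i]
    · simp only [if_true]
      rw [Finset.sum_ite_eq]
      simp only [Finset.mem_univ, if_true]
      ring
    · intro k _ hk
      simp [Ne.symm hk]
    · intro h
      exact absurd (Finset.mem_univ i) h
  have s3 : (∑ i, ∑ j, ∑ k, ∑ l, if i = l then (if j = k then c i * c j * c k * c l else 0) else 0) =
      (∑ i, c i ^ 2) ^ 2 := by
    rw [sq, Finset.sum_mul_sum]
    refine Finset.sum_congr rfl fun i _ => Finset.sum_congr rfl fun j _ => ?_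
    rw [Finset.sum_eq_single j]
    · simp only [if_true]
      rw [Finset.sum_ite_eq]
      simp only [Finset.mem_univ, if_true]
      ring
    · intro k _ hk
      simp [Ne.symm hk]
    · intro h
      exact absurd (Finset.mem_univ j) h
  have s4 : (∑ i, ∑ j, ∑ k, ∑ l, if i = j then (if k = l then (if i = k then c i * c j * c k * c l else 0) else 0)
      else 0) = ∑ i, c i ^ 4 := by
    refine Finset.sum_congr rfl fun i _ => ?_
    rw [Finset.sum_eq_single i]
    · simp only [if_true]
      rw [A fun k l => if i = k then c i * c i * c k * c l else 0, Finset.sum_ite_eq]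
      simp only [Finset.mem_univ, if_true]
      ring
    · intro j _ hj
      simp [Ne.symm hj]
    · intro h
      exact absurd (Finset.mem_univ i) h
  rw [s1, s2, s3, s4]
  ring

omit [NumberField K] in
lemma lin2 (c : Fin n → ℝ) (v : PL S) :
    lin α c v ^ 2 = ∑ p : Fin n × Fin n, c2 c p * (trace α p.1 v * trace α p.2 v) := by
  unfold lin
  rw [sum_sq]
  exact Finset.sum_congr rfl fun p _ => by unfold c2; ring

omit [NumberField K] in
lemma lin3 (c : Fin n → ℝ) (v : PL S) :
    lin α c v ^ 3 = ∑ p : Fin n × Fin n × Fin n,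
      c3 c p * (trace α p.1 v * trace α p.2.1 v * trace α p.2.2 v) := by
  unfold lin
  rw [sum_cube]
  exact Finset.sum_congr rfl fun p _ => by unfold c3; ring

omit [NumberField K] in
lemma lin4 (c : Fin n → ℝ) (v : PL S) :
    lin α c v ^ 4 = ∑ p : Fin n × Fin n × Fin n × Fin n,
      c4 c p * (trace α p.1 v * trace α p.2.1 v * trace α p.2.2.1 v * trace α p.2.2.2 v) := by
  unfold lin
  rw [sum_four]
  exact Finset.sum_congr rfl fun p _ => by unfold c4; ring

lemma mlin1 (h : Curves α) (c : Fin n → ℝ) : Mean (lin α c) 0 := by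
  have := Mean.sum (Finset.univ : Finset (Fin n)) fun i _ => (mean1 h i).const_mul (c i)
  exact this.congr (fun v => rfl) (by simp)

lemma mlin2 (h : Curves α) (c : Fin n → ℝ) : Mean (fun v => lin α c v ^ 2) (∑ i, c i ^ 2) := by
  have := Mean.sum (Finset.univ : Finset (Fin n × Fin n)) fun p _ => (mean2 h p.1 p.2).const_mul (c2 c p)
  exact this.congr (fun v => lin2 c v) (val2 c).symm

lemma mlin3 (h : Curves α) (c : Fin n → ℝ) : Mean (fun v => lin α c v ^ 3) 0 := by
  have := Mean.sum (Finset.univ : Finset (Fin n × Fin n × Fin n))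
    fun p _ => (mean3 h p.1 p.2.1 p.2.2).const_mul (c3 c p)
  exact this.congr (fun v => lin3 c v) (by simp)

lemma mlin4 (h : Curves α) (c : Fin n → ℝ) :
    Mean (fun v => lin α c v ^ 4) (3 * (∑ i, c i ^ 2) ^ 2 - ∑ i, c i ^ 4) := by
  have := Mean.sum (Finset.univ : Finset (Fin n × Fin n × Fin n × Fin n))
    fun p _ => (mean4 h p.1 p.2.1 p.2.2.1 p.2.2.2).const_mul (c4 c p)
  exact this.congr (fun v => lin4 c v) (val4 c).symm

/-- **The first four moments, uniformly in the linear form.** -/
lemma uniform (h : Curves α) {δ : ℝ} (hδ : 0 < δ) : ∀ᶠ x : ℝ in 𝓝[>] 1, ∀ c : Fin n → ℝ, (∀ i, |c i| ≤ 1) →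
    |M (lin α c) x| ≤ δ ∧ |M (fun v => lin α c v ^ 2) x - ∑ i, c i ^ 2| ≤ δ ∧
    |M (fun v => lin α c v ^ 3) x| ≤ δ ∧
    |M (fun v => lin α c v ^ 4) x - (3 * (∑ i, c i ^ 2) ^ 2 - ∑ i, c i ^ 4)| ≤ δ := by
  have t1 := err_tendsto (fun i => mean1 h i)
  have t2 := err_tendsto (fun p : Fin n × Fin n => mean2 h p.1 p.2)
  have t3 := err_tendsto (fun p : Fin n × Fin n × Fin n => mean3 h p.1 p.2.1 p.2.2)
  have t4 := err_tendsto (fun p : Fin n × Fin n × Fin n × Fin n => mean4 h p.1 p.2.1 p.2.2.1 p.2.2.2)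
  filter_upwards [t1.eventually (gt_mem_nhds hδ), t2.eventually (gt_mem_nhds hδ),
    t3.eventually (gt_mem_nhds hδ), t4.eventually (gt_mem_nhds hδ), self_mem_nhdsWithin] with x h1 h2 h3 h4 hx
  have hx : (1 : ℝ) < x := hx
  intro c hc
  have b2 : ∀ p, |c2 c p| ≤ 1 := fun p => by
    unfold c2
    rw [abs_mul]
    exact mul_le_one₀ (hc _) (abs_nonneg _) (hc _)
  have b3 : ∀ p, |c3 c p| ≤ 1 := fun p => by
    unfold c3
    rw [abs_mul, abs_mul]
    exact mul_le_one₀ (mul_le_one₀ (hc _) (abs_nonneg _) (hc _)) (abs_nonneg _) (hc _)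
  have b4 : ∀ p, |c4 c p| ≤ 1 := fun p => by
    unfold c4
    rw [abs_mul, abs_mul, abs_mul]
    exact mul_le_one₀ (mul_le_one₀ (mul_le_one₀ (hc _) (abs_nonneg _) (hc _)) (abs_nonneg _) (hc _))
      (abs_nonneg _) (hc _)
  refine ⟨?_, ?_, ?_, ?_⟩
  · have := M_comb (fun i => (mean1 h i).1) c (fun _ => 0) hc hx
    simp only [mul_zero, Finset.sum_const_zero, sub_zero] at this
    simp only [sub_zero] at h1
    exact this.trans h1.le
  · have := M_comb (fun p : Fin n × Fin n => (mean2 h p.1 p.2).1) (c2 c) (fun p => if p.1 = p.2 then 1 else 0) b2 hx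
    rw [val2] at this
    have e : (fun v => lin α c v ^ 2) = fun v => ∑ p : Fin n × Fin n, c2 c p * (trace α p.1 v * trace α p.2 v) :=
      funext fun v => lin2 c v
    rw [e]
    exact this.trans h2.le
  · have := M_comb (fun p : Fin n × Fin n × Fin n => (mean3 h p.1 p.2.1 p.2.2).1) (c3 c) (fun _ => 0) b3 hx
    simp only [mul_zero, Finset.sum_const_zero, sub_zero] at this
    simp only [sub_zero] at h3
    have e : (fun v => lin α c v ^ 3) = fun v => ∑ p : Fin n × Fin n × Fin n,
      c3 c p * (trace α p.1 v * trace α p.2.1 v * trace α p.2.2 v) := funext fun v => lin3 c v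
    rw [e]
    exact this.trans h3.le
  · have := M_comb (fun p : Fin n × Fin n × Fin n × Fin n => (mean4 h p.1 p.2.1 p.2.2.1 p.2.2.2).1) (c4 c)
      (fun p => e4 p.1 p.2.1 p.2.2.1 p.2.2.2) b4 hx
    rw [val4] at this
    have e : (fun v => lin α c v ^ 4) = fun v => ∑ p : Fin n × Fin n × Fin n × Fin n,
      c4 c p * (trace α p.1 v * trace α p.2.1 v * trace α p.2.2.1 v * trace α p.2.2.2 v) :=
      funext fun v => lin4 c v
    rw [e]
    exact this.trans h4.le

end Pool.Agent.H60.HS
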