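import Pool.Agent.H60.HS.Linear

/-! Half-spaces and large values. -/

set_option autoImplicit false

namespace Pool.Agent.H60.HS

open NumberField IsDedekindDomain Filter Topology
open Pool.Agent.N859.G4 Pool.Agent.N859.LP Pool.Agent.N859.SP

section ineq

/-- the elementary inequality behind the minorant -/
lemma amgm {X Y : ℝ} (hX : 0 ≤ X) (h : 0 ≤ 4 - 2 * X - Y) (hY : 0 ≤ Y) : X ^ 2 * Y * (4 - 2 * X - Y) ≤ 1 := by
  have h1 : Y * (4 - 2 * X - Y) ≤ (2 - X) ^ 2 := by nlinarith [sq_nonneg (Y - (2 - X))]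
  have h2 : X ≤ 2 := by linarith
  have h3 : X * (2 - X) ≤ 1 := by nlinarith [sq_nonneg (X - 1)]
  have h4 : 0 ≤ X * (2 - X) := mul_nonneg hX (by linarith)
  calc X ^ 2 * Y * (4 - 2 * X - Y) = X ^ 2 * (Y * (4 - 2 * X - Y)) := by ring
    _ ≤ X ^ 2 * (2 - X) ^ 2 := mul_le_mul_of_nonneg_left h1 (sq_nonneg X)
    _ = (X * (2 - X)) ^ 2 := by ring
    _ ≤ 1 := pow_le_one₀ h4 h3

/-- the minorant of the indicator function of `s > t` with the nodes `-a`, `t`, `b` -/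
noncomputable def mnr (a t b s : ℝ) : ℝ :=
  ((s + a) / (a + b)) ^ 2 * ((s - t) / (b - t)) * (4 - 2 * ((s + a) / (a + b)) - (s - t) / (b - t))

lemma mnr_le_one {a t b : ℝ} (ha : 0 < a + t) (hb : t < b) {s : ℝ} (hs : t < s) : mnr a t b s ≤ 1 := by
  have hab : 0 < a + b := by linarith
  have hX : 0 ≤ (s + a) / (a + b) := div_nonneg (by linarith) hab.le
  have hY : 0 ≤ (s - t) / (b - t) := div_nonneg (by linarith) (by linarith)
  unfold mnr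
  by_cases h : 0 ≤ 4 - 2 * ((s + a) / (a + b)) - (s - t) / (b - t)
  · exact amgm hX h hY
  · have : ((s + a) / (a + b)) ^ 2 * ((s - t) / (b - t)) *
        (4 - 2 * ((s + a) / (a + b)) - (s - t) / (b - t)) ≤ 0 :=
      mul_nonpos_of_nonneg_of_nonpos (mul_nonneg (sq_nonneg _) hY) (le_of_lt (not_le.1 h))
    linarith

lemma mnr_nonpos {a t b : ℝ} (ha : 0 < a + t) (hb : t < b) {s : ℝ} (hs : s ≤ t) : mnr a t b s ≤ 0 := by
  have hab : 0 < a + b := by linarith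
  have hbt : 0 < b - t := by linarith
  have hY : (s - t) / (b - t) ≤ 0 := div_nonpos_of_nonpos_of_nonneg (by linarith) (by linarith)
  have hX : (s + a) / (a + b) < 1 := by rw [div_lt_one hab]; linarith
  unfold mnr
  have h1 : ((s + a) / (a + b)) ^ 2 * ((s - t) / (b - t)) ≤ 0 :=
    mul_nonpos_of_nonneg_of_nonpos (sq_nonneg _) hY
  exact mul_nonpos_of_nonpos_of_nonneg h1 (by linarith)

/-- the coefficients of the minorant -/
noncomputable def cf (a t b : ℝ) (j : Fin 5) : ℝ :=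
  let p := 1 / (a + b)
  let r := 1 / (b - t)
  let z0 := 4 - 2 * p * a + r * t
  let z1 := 2 * p + r
  ![-z0 * p ^ 2 * a ^ 2 * r * t,
    z0 * (p ^ 2 * a ^ 2 * r - 2 * p ^ 2 * a * r * t) + z1 * p ^ 2 * a ^ 2 * r * t,
    z0 * (2 * p ^ 2 * a * r - p ^ 2 * r * t) - z1 * (p ^ 2 * a ^ 2 * r - 2 * p ^ 2 * a * r * t),
    p ^ 2 * r * z0 - z1 * (2 * p ^ 2 * a * r - p ^ 2 * r * t),
    -p ^ 2 * r * z1] j

lemma mnr_poly (a t b s : ℝ) :
    mnr a t b s = cf a t b 0 + cf a t b 1 * s + cf a t b 2 * s ^ 2 + cf a t b 3 * s ^ 3 + cf a t b 4 * s ^ 4 := by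
  simp only [mnr, cf, div_eq_mul_inv, one_mul, Matrix.cons_val_zero, Matrix.cons_val_one, Matrix.cons_val]
  ring

/-- the nodes -/
noncomputable def na (t κ : ℝ) : ℝ := (Dl t κ - t * (κ - 1)) / (2 * (1 - t ^ 2))
/-- the nodes -/
noncomputable def nb (t κ : ℝ) : ℝ := (Dl t κ + t * (κ - 1)) / (2 * (1 - t ^ 2))

variable {t κ : ℝ}

lemma rad_nonneg (ht : 0 ≤ t) (ht1 : t < 1) (hκ : 1 ≤ κ) :
    0 ≤ t ^ 2 * (κ - 1) ^ 2 + 4 * (κ - t ^ 2) * (1 - t ^ 2) := by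
  have h1 : t ^ 2 ≤ 1 := by nlinarith
  have : 0 ≤ (κ - t ^ 2) * (1 - t ^ 2) := mul_nonneg (by linarith) (by linarith)
  nlinarith [sq_nonneg (t * (κ - 1))]

lemma Dl_sq (ht : 0 ≤ t) (ht1 : t < 1) (hκ : 1 ≤ κ) :
    Dl t κ ^ 2 = t ^ 2 * (κ - 1) ^ 2 + 4 * (κ - t ^ 2) * (1 - t ^ 2) := by
  unfold Dl
  exact Real.sq_sqrt (rad_nonneg ht ht1 hκ)

lemma Dl_nonneg (t κ : ℝ) : 0 ≤ Dl t κ := Real.sqrt_nonneg _

lemma sq_lt (ht : 0 ≤ t) (ht1 : t < 1) : 0 < 1 - t ^ 2 := by nlinarith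

lemma Dl_gt (ht : 0 ≤ t) (ht1 : t < 1) (hκ : 1 ≤ κ) : t * (κ - 1) < Dl t κ := by
  have h1 := sq_lt ht ht1
  refine lt_of_pow_lt_pow_left₀ 2 (Dl_nonneg t κ) ?_
  rw [Dl_sq ht ht1 hκ, mul_pow]
  have : 0 < (κ - t ^ 2) * (1 - t ^ 2) := mul_pos (by linarith) h1
  linarith

lemma Dl_pos (ht : 0 ≤ t) (ht1 : t < 1) (hκ : 1 ≤ κ) : 0 < Dl t κ :=
  lt_of_le_of_lt (mul_nonneg ht (by linarith)) (Dl_gt ht ht1 hκ)

lemma f2_pos (ht : 0 ≤ t) (ht1 : t < 1) (hκ : 1 ≤ κ) : 0 < Dl t κ - (3 - κ) * t + 2 * t ^ 3 := by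
  have h1 := sq_lt ht ht1
  have h2 : ((3 - κ) * t - 2 * t ^ 3) ^ 2 < Dl t κ ^ 2 := by
    rw [Dl_sq ht ht1 hκ]
    have e : t ^ 2 * (κ - 1) ^ 2 + 4 * (κ - t ^ 2) * (1 - t ^ 2) - ((3 - κ) * t - 2 * t ^ 3) ^ 2 =
        4 * (1 - t ^ 2) * ((κ - 1) * (1 + t ^ 2) + (1 - t ^ 2) ^ 2) := by ring
    have : 0 < 4 * (1 - t ^ 2) * ((κ - 1) * (1 + t ^ 2) + (1 - t ^ 2) ^ 2) := by
      have : 0 ≤ (κ - 1) * (1 + t ^ 2) := mul_nonneg (by linarith) (by positivity)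
      positivity
    linarith
  have h3 := lt_of_pow_lt_pow_left₀ 2 (Dl_nonneg t κ) (lt_of_eq_of_lt (sq_abs _) h2)
  have := le_abs_self ((3 - κ) * t - 2 * t ^ 3)
  linarith

lemma f3_pos (ht : 0 ≤ t) (ht1 : t < 1) (hκ : 1 ≤ κ) : 0 < 2 - (3 - κ) * t ^ 2 + t * Dl t κ := by
  have h1 := sq_lt ht ht1
  have h2 := mul_nonneg ht (Dl_nonneg t κ)
  have h3 : 0 ≤ (κ - 1) * t ^ 2 := mul_nonneg (by linarith) (sq_nonneg t)
  nlinarith

lemma W_pos (ht : 0 ≤ t) (ht1 : t < 1) (hκ : 1 ≤ κ) : 0 < W t κ := by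
  have h1 := sq_lt ht ht1
  have h2 := Dl_pos ht ht1 hκ
  have h3 := f2_pos ht ht1 hκ
  have h4 := f3_pos ht ht1 hκ
  unfold W
  positivity

lemma na_pos (ht : 0 ≤ t) (ht1 : t < 1) (hκ : 1 ≤ κ) : 0 < na t κ := by
  have h1 := sq_lt ht ht1
  have h2 := Dl_gt ht ht1 hκ
  unfold na
  exact div_pos (by linarith) (by linarith)

lemma nb_gt (ht : 0 ≤ t) (ht1 : t < 1) (hκ : 1 ≤ κ) : t < nb t κ := by
  have h1 := sq_lt ht ht1
  have h2 := f2_pos ht ht1 hκ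
  unfold nb
  rw [lt_div_iff₀ (by linarith)]
  nlinarith

/-- the mean value of the minorant -/
lemma value (ht : 0 ≤ t) (ht1 : t < 1) (hκ : 1 ≤ κ) :
    cf (na t κ) t (nb t κ) 0 + cf (na t κ) t (nb t κ) 2 + cf (na t κ) t (nb t κ) 4 * κ = W t κ := by
  have h1 := sq_lt ht ht1
  have hD := Dl_sq ht ht1 hκ
  have hD0 := Dl_pos ht ht1 hκ
  have h2 := f2_pos ht ht1 hκ
  have h3 := f3_pos ht ht1 hκ
  have ha := na_pos ht ht1 hκ
  have hb := nb_gt ht ht1 hκ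
  have ea : na t κ * (2 * (1 - t ^ 2)) = Dl t κ - t * (κ - 1) := by
    unfold na
    exact div_mul_cancel₀ _ (by positivity)
  have eb : nb t κ * (2 * (1 - t ^ 2)) = Dl t κ + t * (κ - 1) := by
    unfold nb
    exact div_mul_cancel₀ _ (by positivity)
  unfold W
  generalize na t κ = a at *
  generalize nb t κ = b at *
  generalize Dl t κ = D at *
  -- relations
  have e1 : (b - a) * (1 - t ^ 2) = t * (κ - 1) := by linarith
  have e2 : (a + b) * (1 - t ^ 2) = D := by linarith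
  have e3 : a * b * (1 - t ^ 2) = κ - t ^ 2 := by
    have : a * b * (1 - t ^ 2) ^ 2 * 4 = (κ - t ^ 2) * (1 - t ^ 2) * 4 := by
      calc a * b * (1 - t ^ 2) ^ 2 * 4 = ((a + b) * (1 - t ^ 2)) ^ 2 - ((b - a) * (1 - t ^ 2)) ^ 2 := by ring
        _ = D ^ 2 - (t * (κ - 1)) ^ 2 := by rw [e2, e1]
        _ = (κ - t ^ 2) * (1 - t ^ 2) * 4 := by rw [hD]; ring
    have h5 : (a * b * (1 - t ^ 2) - (κ - t ^ 2)) * (1 - t ^ 2) = 0 := by linarith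
    rcases mul_eq_zero.1 h5 with h6 | h6
    · linarith
    · exact absurd h6 h1.ne'
  have e4 : b * (1 - t * a) = a - t := by
    have : (b * (1 - t * a) - (a - t)) * (1 - t ^ 2) = 0 := by
      have : (b * (1 - t * a) - (a - t)) * (1 - t ^ 2) =
          (b - a) * (1 - t ^ 2) - t * (a * b * (1 - t ^ 2)) + t * (1 - t ^ 2) := by ring
      rw [this, e1, e3]
      ring
    rcases mul_eq_zero.1 this with h6 | h6
    · linarith
    · exact absurd h6 h1.ne'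
  have hab : 0 < a + b := by linarith
  have hbt : 0 < b - t := by linarith
  -- the value of the mean in terms of the nodes
  have key : cf a t b 0 + cf a t b 2 + cf a t b 4 * κ = (1 - t * a) / ((b - t) * (a + b)) := by
    have hp : 1 / (a + b) * (a + b) = 1 := one_div_mul_cancel hab.ne'
    have hr : 1 / (b - t) * (b - t) = 1 := one_div_mul_cancel hbt.ne'
    have E3 : (a - t - b) + a * t * b = 0 := by linarith
    have E4 : κ + t * b - a * t - a * b = 0 := by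
      have : t * (b * (1 - t * a)) = t * (a - t) := by rw [e4]
      linarith
    have e : (1 - t * a) / ((b - t) * (a + b)) = (1 - t * a) * (1 / (a + b)) * (1 / (b - t)) := by
      field_simp
    rw [e]
    simp only [cf, Matrix.cons_val_zero, Matrix.cons_val]
    generalize 1 / (a + b) = p at *
    generalize 1 / (b - t) = r at *
    linear_combination (p * r * (1 - a * t) - 2 * p ^ 2 * r * (2 * a - t - a ^ 2 * t)) * hp -
      p ^ 2 * r * (2 * a - t - a ^ 2 * t) * hr + p * r * (p - (2 * p + r) * p * a) * E3 -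
      p * r * (2 * p + r) * p * E4
  rw [key]
  have e5 : 2 * (1 - t ^ 2) * (1 - t * a) = 2 - (3 - κ) * t ^ 2 - t * D := by
    calc 2 * (1 - t ^ 2) * (1 - t * a) = 2 * (1 - t ^ 2) - t * (a * (2 * (1 - t ^ 2))) := by ring
      _ = _ := by rw [ea]; ring
  have e6 : 2 * (1 - t ^ 2) * (b - t) = D - (3 - κ) * t + 2 * t ^ 3 := by
    calc 2 * (1 - t ^ 2) * (b - t) = b * (2 * (1 - t ^ 2)) - 2 * (1 - t ^ 2) * t := by ring
      _ = _ := by rw [eb]; ring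
  have e7 : (2 - (3 - κ) * t ^ 2 - t * D) * (2 - (3 - κ) * t ^ 2 + t * D) = 4 * (1 - t ^ 2) ^ 3 := by
    have : (2 - (3 - κ) * t ^ 2 - t * D) * (2 - (3 - κ) * t ^ 2 + t * D) =
        (2 - (3 - κ) * t ^ 2) ^ 2 - t ^ 2 * D ^ 2 := by ring
    rw [this, hD]
    ring
  rw [div_eq_div_iff (by positivity) (by positivity)]
  have : (1 - t * a) * (D * (D - (3 - κ) * t + 2 * t ^ 3) * (2 - (3 - κ) * t ^ 2 + t * D)) * (2 * (1 - t ^ 2)) =
      4 * (1 - t ^ 2) ^ 4 * ((b - t) * (a + b)) * (2 * (1 - t ^ 2)) := by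
    calc _ = (2 * (1 - t ^ 2) * (1 - t * a)) * (2 - (3 - κ) * t ^ 2 + t * D) *
          (D * (D - (3 - κ) * t + 2 * t ^ 3)) := by ring
      _ = 4 * (1 - t ^ 2) ^ 3 * (D * (D - (3 - κ) * t + 2 * t ^ 3)) := by rw [e5, e7]
      _ = 4 * (1 - t ^ 2) ^ 3 * (((a + b) * (1 - t ^ 2)) * (2 * (1 - t ^ 2) * (b - t))) := by rw [e2, e6]
      _ = _ := by ring
  exact mul_right_cancel₀ (by positivity : (2 * (1 - t ^ 2)) ≠ 0) this

lemma W_zero (hκ : 1 ≤ κ) : W 0 κ = 1 / (2 * κ) := by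
  have h1 : Dl 0 κ * Dl 0 κ = 4 * κ := by
    have := Dl_sq (t := 0) le_rfl one_pos hκ
    nlinarith
  unfold W
  have : Dl 0 κ * (Dl 0 κ - (3 - κ) * 0 + 2 * 0 ^ 3) * (2 - (3 - κ) * 0 ^ 2 + 0 * Dl 0 κ) = 8 * κ := by
    calc _ = (Dl 0 κ * Dl 0 κ) * 2 := by ring
      _ = 8 * κ := by rw [h1]; ring
  rw [this]
  have : κ ≠ 0 := by linarith
  field_simp
  norm_num

/-- a polynomial inequality, in the Bernstein basis -/
lemma bern (ht : 0 ≤ t) (ht1 : t ≤ 1) :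
    (3 - 3 * t ^ 2 + t ^ 4) * (1 + t ^ 4) + t * ((3 - 3 * t ^ 2 + t ^ 4 + 9 / 4) / 3) * (3 - 2 * t ^ 2 + t ^ 4) ≤
      9 / 2 := by
  have h : 9 / 2 - ((3 - 3 * t ^ 2 + t ^ 4) * (1 + t ^ 4) +
      t * ((3 - 3 * t ^ 2 + t ^ 4 + 9 / 4) / 3) * (3 - 2 * t ^ 2 + t ^ 4)) =
      (3 / 2) * (t ^ 0 * (1 - t) ^ 16) +
      (75 / 4) * (t ^ 1 * (1 - t) ^ 15) +
      (417 / 4) * (t ^ 2 * (1 - t) ^ 14) +
      (1349 / 4) * (t ^ 3 * (1 - t) ^ 13) +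
      (2779 / 4) * (t ^ 4 * (1 - t) ^ 12) +
      (932 / 1) * (t ^ 5 * (1 - t) ^ 11) +
      (795 / 1) * (t ^ 6 * (1 - t) ^ 10) +
      (1283 / 3) * (t ^ 7 * (1 - t) ^ 9) +
      (281 / 1) * (t ^ 8 * (1 - t) ^ 8) +
      (6029 / 12) * (t ^ 9 * (1 - t) ^ 7) +
      (8975 / 12) * (t ^ 10 * (1 - t) ^ 6) +
      (2793 / 4) * (t ^ 11 * (1 - t) ^ 5) +
      (5101 / 12) * (t ^ 12 * (1 - t) ^ 4) +
      (1025 / 6) * (t ^ 13 * (1 - t) ^ 3) +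
      (87 / 2) * (t ^ 14 * (1 - t) ^ 2) +
      (37 / 6) * (t ^ 15 * (1 - t) ^ 1) +
      (1 / 3) * (t ^ 16 * (1 - t) ^ 0) := by
    ring
  have h1 : 0 ≤ 1 - t := by linarith
  have h2 : 0 ≤ 9 / 2 - ((3 - 3 * t ^ 2 + t ^ 4) * (1 + t ^ 4) +
      t * ((3 - 3 * t ^ 2 + t ^ 4 + 9 / 4) / 3) * (3 - 2 * t ^ 2 + t ^ 4)) := by
    rw [h]
    positivity
  linarith

lemma Dl_mono (ht : 0 ≤ t) (ht1 : t < 1) (hκ : 1 ≤ κ) (hκ3 : κ ≤ 3) : Dl t κ ≤ 2 * √(3 - 3 * t ^ 2 + t ^ 4) := by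
  have h1 := sq_lt ht ht1
  have e : 2 * √(3 - 3 * t ^ 2 + t ^ 4) = √(4 * (3 - 3 * t ^ 2 + t ^ 4)) := by
    rw [Real.sqrt_mul (by norm_num : (0 : ℝ) ≤ 4)]
    congr 1
    rw [show (4 : ℝ) = 2 ^ 2 by norm_num, Real.sqrt_sq (by norm_num)]
  rw [e]
  unfold Dl
  apply Real.sqrt_le_sqrt
  have h2 : t ^ 2 * (κ - 1) ^ 2 ≤ t ^ 2 * 2 ^ 2 := by
    apply mul_le_mul_of_nonneg_left _ (sq_nonneg t)
    nlinarith
  have h3 : (κ - t ^ 2) * (1 - t ^ 2) ≤ (3 - t ^ 2) * (1 - t ^ 2) :=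
    mul_le_mul_of_nonneg_right (by linarith) h1.le
  nlinarith

/-- a simple lower bound -/
lemma W_ge (ht : 0 ≤ t) (ht1 : t < 1) (hκ : 1 ≤ κ) (hκ3 : κ ≤ 3) : (1 - t ^ 2) ^ 4 / 9 ≤ W t κ := by
  have h1 := sq_lt ht ht1
  have h2 := Dl_pos ht ht1 hκ
  have h3 := f2_pos ht ht1 hκ
  have h4 := f3_pos ht ht1 hκ
  set E := √(3 - 3 * t ^ 2 + t ^ 4) with hE
  have hE0 : 0 ≤ E := Real.sqrt_nonneg _
  have hE2 : E ^ 2 = 3 - 3 * t ^ 2 + t ^ 4 := Real.sq_sqrt (by nlinarith [sq_nonneg (t ^ 2)])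
  have hDE : Dl t κ ≤ 2 * E := Dl_mono ht ht1 hκ hκ3
  have hE1 : E ≤ (3 - 3 * t ^ 2 + t ^ 4 + 9 / 4) / 3 := by
    rw [← hE2]
    nlinarith [sq_nonneg (E - 3 / 2)]
  have q2 : Dl t κ - (3 - κ) * t + 2 * t ^ 3 ≤ 2 * E + 2 * t ^ 3 := by
    have : 0 ≤ (3 - κ) * t := mul_nonneg (by linarith) ht
    linarith
  have q3 : 2 - (3 - κ) * t ^ 2 + t * Dl t κ ≤ 2 + 2 * (t * E) := by
    have : 0 ≤ (3 - κ) * t ^ 2 := mul_nonneg (by linarith) (sq_nonneg t)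
    have := mul_le_mul_of_nonneg_left hDE ht
    linarith
  have q : Dl t κ * (Dl t κ - (3 - κ) * t + 2 * t ^ 3) * (2 - (3 - κ) * t ^ 2 + t * Dl t κ) ≤ 36 := by
    calc _ ≤ (2 * E) * (2 * E + 2 * t ^ 3) * (2 + 2 * (t * E)) :=
          mul_le_mul (mul_le_mul hDE q2 h3.le (by positivity)) q3 h4.le (by positivity)
      _ = 8 * (E ^ 2 * (1 + t ^ 4) + t * E * (E ^ 2 + t ^ 2)) := by ring
      _ = 8 * ((3 - 3 * t ^ 2 + t ^ 4) * (1 + t ^ 4) + t * E * (3 - 2 * t ^ 2 + t ^ 4)) := by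
          rw [hE2]; ring
      _ ≤ 8 * ((3 - 3 * t ^ 2 + t ^ 4) * (1 + t ^ 4) +
            t * ((3 - 3 * t ^ 2 + t ^ 4 + 9 / 4) / 3) * (3 - 2 * t ^ 2 + t ^ 4)) := by
          have : 0 ≤ 3 - 2 * t ^ 2 + t ^ 4 := by nlinarith [sq_nonneg (t ^ 2)]
          have := mul_le_mul_of_nonneg_right (mul_le_mul_of_nonneg_left hE1 ht) this
          linarith
      _ ≤ 8 * (9 / 2) := by
          have := bern ht ht1.le
          linarith
      _ = 36 := by norm_num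
  unfold W
  rw [div_le_div_iff₀ (by norm_num) (by positivity)]
  have := mul_le_mul_of_nonneg_left q (by positivity : 0 ≤ (1 - t ^ 2) ^ 4)
  linarith

end ineq

end Pool.Agent.H60.HS
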