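import Pool.Graph.R_pool_sql_team_seeded_63374d34.N859.SP.Mean

/-! Mean values from `L`-functions with a pole at `s = 1`. -/

set_option autoImplicit false

namespace Pool.Agent.H60.HS

open NumberField IsDedekindDomain Filter Topology
open Pool.Agent.N859.G4 Pool.Agent.N859.LP Pool.Agent.N859.SP
open Pool.Agent.H921R2.TatePole (Lam Lam_tendsto)

variable {K : Type*} [Field K] [NumberField K] {S : Finset (HeightOneSpectrum (𝓞 K))}

/-- mean values from `L`-functions, a pole of any order -/
lemma mean_of_pole' {t : PL S → ℕ → ℂ} {m : ℤ} (h : Pole t m) {B : ℝ} (hB : ∀ v k, 1 ≤ k → ‖t v k‖ ≤ B) :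
    Mean (fun v => (t v 1).re) m := by
  have hre : ∀ v k, 1 ≤ k → |(t v k).re| ≤ B := fun v k hk => (Complex.abs_re_le_norm _).trans (hB v k hk)
  refine ⟨⟨B, fun v => hre v 1 le_rfl⟩, ?_⟩
  obtain ⟨C1, h1⟩ := h.asymp
  obtain ⟨C2, h2⟩ := Q_asymp (S := S)
  obtain ⟨C3, h3⟩ := Z_asymp (S := S)
  have key : ∀ᶠ x : ℝ in 𝓝[>] 1, |∑' v : PL S, (t v 1).re * wt v x - m * Lam x| ≤ C1 + |B| * (C2 + C3) := by
    filter_upwards [h1, h2, h3, self_mem_nhdsWithin] with x h1 h2 h3 hx1
    have hx1 : (1 : ℝ) < x := hx1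
    have sE := h.summableE hx1
    have sQ := summableQ (S := S) hx1
    have hBd : Bd fun v : PL S => (t v 1).re := ⟨B, fun v => hre v 1 le_rfl⟩
    have s1 := hBd.summable hx1
    have sgn : ∀ e : ℝ, |e| ≤ 1 →
        e * (∑' v : PL S, (t v 1).re * wt v x - m * Lam x) ≤ C1 + |B| * (C2 + C3) := by
      intro e he
      have g0 : ∀ y : PL S × ℕ, 0 ≤ |B| * Q x y + e * E t x y := by
        intro y
        have hw := wt_nonneg y.1 x
        have e1 : |e * (t y.1 (y.2 + 1)).re| ≤ |B| := by
          rw [abs_mul]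
          calc |e| * |(t y.1 (y.2 + 1)).re| ≤ 1 * |(t y.1 (y.2 + 1)).re| :=
                mul_le_mul_of_nonneg_right he (abs_nonneg _)
            _ ≤ B := by rw [one_mul]; exact hre _ _ (by omega)
            _ ≤ |B| := le_abs_self _
        have e2 : |B| * Q x y + e * E t x y =
            (|B| + e * (t y.1 (y.2 + 1)).re) * (1 / ((y.2 : ℝ) + 1) * (wt y.1 x) ^ (y.2 + 1)) := by
          unfold Q E; ring
        rw [e2]
        refine mul_nonneg ?_ (by positivity)
        have := (abs_le.1 e1).1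
        linarith
      have sG : Summable fun y : PL S × ℕ => |B| * Q x y + e * E t x y := (sQ.mul_left _).add (sE.mul_left _)
      have a1 := tsum_comp_le_tsum_of_inj sG g0 (inj_zero (S := S))
      have a2 : ∑' v : PL S, (|B| * Q x (v, 0) + e * E t x (v, 0)) =
          |B| * Z S x + e * ∑' v : PL S, (t v 1).re * wt v x := by
        have : ∀ v : PL S, |B| * Q x (v, 0) + e * E t x (v, 0) = |B| * wt v x + e * ((t v 1).re * wt v x) := by
          intro v
          unfold Q E
          norm_num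
        rw [tsum_congr this, ((summable_wt hx1).mul_left _).tsum_add (s1.mul_left _), tsum_mul_left,
          tsum_mul_left]
        rfl
      have a3 : ∑' y : PL S × ℕ, (|B| * Q x y + e * E t x y) =
          |B| * ∑' y, Q (S := S) x y + e * ∑' y, E t x y := by
        rw [(sQ.mul_left _).tsum_add (sE.mul_left _), tsum_mul_left, tsum_mul_left]
      have a4 : |B| * Z S x + e * ∑' v : PL S, (t v 1).re * wt v x ≤
          |B| * ∑' y, Q (S := S) x y + e * ∑' y, E t x y := by
        rw [← a2, ← a3]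
        exact a1
      have a5 : e * (∑' y, E t x y - m * Lam x) ≤ C1 := by
        calc e * (∑' y, E t x y - m * Lam x) ≤ |e * (∑' y, E t x y - m * Lam x)| := le_abs_self _
          _ = |e| * |∑' y, E t x y - m * Lam x| := abs_mul _ _
          _ ≤ 1 * |∑' y, E t x y - m * Lam x| := mul_le_mul_of_nonneg_right he (abs_nonneg _)
          _ ≤ C1 := by rw [one_mul]; exact h1
      have a6 : |B| * (∑' y, Q (S := S) x y - Z S x) ≤ |B| * (C2 + C3) := by
        refine mul_le_mul_of_nonneg_left ?_ (abs_nonneg B)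
        have := (abs_le.1 h2).2
        have := (abs_le.1 h3).1
        linarith
      nlinarith
    rw [abs_le]
    have p := sgn 1 (by norm_num)
    have q := sgn (-1) (by norm_num)
    constructor <;> linarith
  rw [Metric.tendsto_nhds]
  intro ε hε
  filter_upwards [key, h3, Z_pos (S := S), (Z_tendsto (S := S)).eventually_gt_atTop
    ((C1 + |B| * (C2 + C3) + |(m : ℝ)| * C3) / ε)] with x hx h3 hZ h4
  rw [Real.dist_eq]
  unfold M
  have e1 : (∑' v : PL S, (t v 1).re * wt v x) / Z S x - m =
      ((∑' v : PL S, (t v 1).re * wt v x - m * Lam x) - m * (Z S x - Lam x)) / Z S x := by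
    field_simp
    ring
  rw [e1, abs_div, abs_of_pos hZ, div_lt_iff₀ hZ]
  rw [div_lt_iff₀ hε] at h4
  have e2 : |(m : ℝ) * (Z S x - Lam x)| ≤ |(m : ℝ)| * C3 := by
    rw [abs_mul]
    exact mul_le_mul_of_nonneg_left h3 (abs_nonneg _)
  have e3 := abs_sub (∑' v : PL S, (t v 1).re * wt v x - m * Lam x) ((m : ℝ) * (Z S x - Lam x))
  linarith

end Pool.Agent.H60.HS
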