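import Pool.Agent.H60.HS.Mean
import Pool.Agent.H60.HS.Defs

/-! The mixed moments of order at most four of the traces of Frobenius of several elliptic curves. -/

set_option autoImplicit false

namespace Pool.Agent.H60.HS

open NumberField IsDedekindDomain Filter Topology
open Pool.Agent.N859.G4 Pool.Agent.N859.LP Pool.Agent.N859.SP

variable {K : Type*} [Field K] [NumberField K] {S : Finset (HeightOneSpectrum (𝓞 K))} {n : ℕ}

variable {α : Fin n → PL S → ℂ}

lemma tr_real {z : ℂ} (hz : ‖z‖ = 1) (k : ℕ) : tr z k = ((2 * (z ^ k).re : ℝ) : ℂ) := by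
  have h1 : z⁻¹ ^ k = (starRingEnd ℂ) (z ^ k) := by
    rw [inv_pow, Complex.inv_def, Complex.normSq_eq_norm_sq, norm_pow, hz]
    simp
  unfold tr
  rw [h1, Complex.add_conj]

lemma tr_norm {z : ℂ} (hz : ‖z‖ = 1) (k : ℕ) : ‖tr z k‖ ≤ 2 := by
  unfold tr
  calc ‖z ^ k + z⁻¹ ^ k‖ ≤ ‖z ^ k‖ + ‖z⁻¹ ^ k‖ := norm_add_le _ _
    _ = 2 := by rw [norm_pow, norm_pow, norm_inv, hz]; norm_num

omit [NumberField K] in
lemma tr_one {α : Fin n → PL S → ℂ} (h : ∀ i v, ‖α i v‖ = 1) (i : Fin n) (v : PL S) :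
    tr (α i v) 1 = ((trace α i v : ℝ) : ℂ) := by
  rw [tr_real (h i v), pow_one]
  rfl

lemma T_norm (h : Curves α) (a : Fin n ⊕ {p : Fin n × Fin n // p.1 ≤ p.2}) (v : PL S) (k : ℕ) :
    ‖T α a v k‖ ≤ 5 := by
  rcases a with i | p
  · exact (tr_norm (h.norm_one i v) k).trans (by norm_num)
  · unfold T
    simp only [Sum.elim_inr]
    have h1 := tr_norm (h.norm_one p.1.1 v) k
    have h2 := tr_norm (h.norm_one p.1.2 v) k
    have h3 : ‖(if p.1.1 = p.1.2 then (1 : ℂ) else 0)‖ ≤ 1 := by split_ifs <;> simp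
    calc _ ≤ ‖tr (α p.1.1 v) k * tr (α p.1.2 v) k‖ + ‖(if p.1.1 = p.1.2 then (1 : ℂ) else 0)‖ := norm_sub_le _ _
      _ ≤ 2 * 2 + 1 := by
        rw [norm_mul]
        exact add_le_add (mul_le_mul h1 h2 (norm_nonneg _) (by norm_num)) h3
      _ = 5 := by norm_num

/-- the real function `T a` at `k = 1` -/
noncomputable def R (α : Fin n → PL S → ℂ) (a : Fin n ⊕ {p : Fin n × Fin n // p.1 ≤ p.2}) (v : PL S) : ℝ :=
  (T α a v 1).re

lemma T_one (h : Curves α) (a : Fin n ⊕ {p : Fin n × Fin n // p.1 ≤ p.2}) (v : PL S) :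
    T α a v 1 = ((R α a v : ℝ) : ℂ) := by
  have key : (T α a v 1).im = 0 := by
    rcases a with i | p
    · unfold T
      simp only [Sum.elim_inl]
      rw [tr_one h.norm_one, Complex.ofReal_im]
    · unfold T
      simp only [Sum.elim_inr]
      rw [tr_one h.norm_one, tr_one h.norm_one]
      split_ifs <;> simp
  apply Complex.ext
  · rfl
  · rw [key, Complex.ofReal_im]

lemma mean_R (h : Curves α) (a : Fin n ⊕ {p : Fin n × Fin n // p.1 ≤ p.2}) : Mean (R α a) 0 := by
  have := mean_of_pole' (h.cuspidal.std a) (fun v k _ => T_norm h a v k)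
  exact this.congr (fun v => rfl) (by simp)

lemma mean_RR (h : Curves α) (a b : Fin n ⊕ {p : Fin n × Fin n // p.1 ≤ p.2}) :
    Mean (fun v => R α a v * R α b v) (if a = b then 1 else 0) := by
  have := mean_of_pole' (h.cuspidal.rs a b) (B := 25) (fun v k _ => by
    rw [norm_mul, RCLike.norm_conj]
    calc _ ≤ (5 : ℝ) * 5 := mul_le_mul (T_norm h a v k) (T_norm h b v k) (norm_nonneg _) (by norm_num)
      _ = 25 := by norm_num)
  refine this.congr (fun v => ?_) (by push_cast; rfl)
  rw [T_one h a v, T_one h b v, Complex.conj_ofReal, ← Complex.ofReal_mul, Complex.ofReal_re]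

/-- the index of the pair `i, j` -/
def pr (i j : Fin n) : {p : Fin n × Fin n // p.1 ≤ p.2} :=
  if h : i ≤ j then ⟨(i, j), h⟩ else ⟨(j, i), (not_le.1 h).le⟩

lemma R_pr (h : Curves α) (i j : Fin n) (v : PL S) :
    R α (.inr (pr i j)) v = trace α i v * trace α j v - if i = j then 1 else 0 := by
  have e := T_one h (.inr (pr i j)) v
  have : T α (.inr (pr i j)) v 1 = ((trace α i v * trace α j v - (if i = j then 1 else 0) : ℝ) : ℂ) := by
    unfold T pr
    simp only [Sum.elim_inr]
    split_ifs with h1 h2 h3 h4 <;> simp_all [tr_one h.norm_one, mul_comm]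
  rw [this] at e
  exact_mod_cast e.symm

lemma R_inl (h : Curves α) (i : Fin n) (v : PL S) : R α (.inl i) v = trace α i v := by
  have e := T_one h (.inl i) v
  have : T α (.inl i) v 1 = ((trace α i v : ℝ) : ℂ) := by
    unfold T
    simp only [Sum.elim_inl]
    exact tr_one h.norm_one i v
  rw [this] at e
  exact_mod_cast e.symm

lemma pr_eq (i j k l : Fin n) : pr i j = pr k l ↔ (i = k ∧ j = l) ∨ (i = l ∧ j = k) := by
  unfold pr
  split_ifs with h1 h2 h2 <;> simp only [Subtype.mk.injEq, Prod.mk.injEq] <;> omega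

lemma mean1 (h : Curves α) (i : Fin n) : Mean (trace α i) 0 :=
  (mean_R h (.inl i)).congr (fun v => (R_inl h i v).symm) rfl

lemma mean2 (h : Curves α) (i j : Fin n) :
    Mean (fun v => trace α i v * trace α j v) (if i = j then 1 else 0) := by
  refine ((mean_R h (.inr (pr i j))).add (Mean.const (if i = j then 1 else 0))).congr (fun v => ?_) (by simp)
  rw [R_pr h]
  ring

lemma mean3 (h : Curves α) (i j k : Fin n) :
    Mean (fun v => trace α i v * trace α j v * trace α k v) 0 := by
  have h1 := mean_RR h (.inr (pr i j)) (.inl k)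
  have h2 := (mean1 h k).const_mul (if i = j then 1 else 0)
  refine (h1.add h2).congr (fun v => ?_) (by simp)
  rw [R_pr h, R_inl h]
  ring

/-- the mean value of the product of four traces -/
def e4 (i j k l : Fin n) : ℝ :=
  (if i = j ∧ k = l then 1 else 0) + (if (i = k ∧ j = l) ∨ (i = l ∧ j = k) then 1 else 0)

lemma mean4 (h : Curves α) (i j k l : Fin n) :
    Mean (fun v => trace α i v * trace α j v * trace α k v * trace α l v) (e4 i j k l) := by
  have h1 := mean_RR h (.inr (pr i j)) (.inr (pr k l))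
  have h2 := (mean_R h (.inr (pr i j))).const_mul (if k = l then 1 else 0)
  have h3 := (mean2 h k l).const_mul (if i = j then 1 else 0)
  refine ((h1.add h2).add h3).congr (fun v => ?_) ?_
  · simp only [R_pr h]
    ring
  · unfold e4
    simp only [Sum.inr.injEq, pr_eq]
    split_ifs <;> simp_all

end Pool.Agent.H60.HS
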